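import Mathlib

namespace Pool.Agent.Results.MP_a87573_co.DistinctRoots

open Polynomial Finset

open Classical in
/-- The number of edge coverings of `G` with exactly `i` edges. -/
noncomputable def coverings {V : Type} [Fintype V] (G : SimpleGraph V) (i : ℕ) : ℕ :=
  ((G.edgeFinset.powersetCard i).filter fun S => ∀ v : V, ∃ e ∈ S, v ∈ e).card

open Classical in
/-- The edge cover polynomial, with complex coefficients. -/
noncomputable def ecp {V : Type} [Fintype V] (G : SimpleGraph V) : ℂ[X] :=
  ∑ i ∈ range (G.edgeFinset.card + 1), C (coverings G i : ℂ) * X ^ i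

lemma alg (f : ℂ[X]) (m d : ℕ) (hd : 1 ≤ d) (hm : d ≤ m) (h0 : f.coeff 0 = 0)
    (h : ∀ j, m < j + d → f.coeff j = (m.choose j : ℂ)) : d ≤ f.roots.toFinset.card := by
  classical
  have h1 : f.coeff m = 1 := by rw [h m (by omega)]; simp
  have hdeg : f.natDegree = m := natDegree_eq_of_le_of_coeff_ne_zero
    (natDegree_le_iff_coeff_eq_zero.2 fun j hj => by
      rw [h j (by omega), Nat.choose_eq_zero_of_lt hj]; simp) (by rw [h1]; simp)
  have f0 : f ≠ 0 := fun e => by rw [e] at h1; simp at h1
  set W : ℂ[X] := derivative f + X * derivative f - C (m : ℂ) * f with hW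
  have cW : ∀ j, W.coeff j = f.coeff (j + 1) * (j + 1) - ((m : ℂ) - j) * f.coeff j := by
    intro j
    rcases j with _ | j
    · simp [hW, coeff_derivative]
    · simp only [hW, coeff_sub, coeff_add, coeff_X_mul, coeff_derivative, coeff_C_mul]
      push_cast; ring
  have W0 : W ≠ 0 := by
    intro e
    have : ∀ j, f.coeff j = 0 := by
      intro j
      induction j with
      | zero => exact h0
      | succ j ih =>
        have := cW j
        rw [e, ih, coeff_zero, mul_zero, sub_zero] at this
        exact (mul_eq_zero.1 this.symm).resolve_right (by exact_mod_cast Nat.succ_ne_zero j)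
    rw [this] at h1; exact zero_ne_one h1
  have dW : W.natDegree ≤ m - d := natDegree_le_iff_coeff_eq_zero.2 fun j hj => by
    rw [cW, h j (by omega), h (j + 1) (by omega)]
    by_cases hjm : j ≤ m
    · have := congrArg (Nat.cast : ℕ → ℂ) (Nat.choose_succ_right_eq m j)
      push_cast [Nat.cast_sub hjm] at this
      linear_combination this
    · rw [Nat.choose_eq_zero_of_lt (by omega), Nat.choose_eq_zero_of_lt (by omega)]; simp
  have mul : ∀ a, f.roots.count a ≤ W.roots.count a + 1 := by
    intro a
    rw [count_roots, count_roots]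
    have p1 := f.pow_rootMultiplicity_dvd a
    have p2 := pow_sub_one_dvd_derivative_of_pow_dvd p1
    have p3 : (X - C a) ^ (rootMultiplicity a f - 1) ∣ f := (pow_dvd_pow _ (by omega)).trans p1
    have : (X - C a) ^ (rootMultiplicity a f - 1) ∣ W :=
      dvd_sub (dvd_add p2 (p2.mul_left _)) (p3.mul_left _)
    have := (le_rootMultiplicity_iff W0).2 this
    omega
  have s1 : f.roots.card = m := by rw [IsAlgClosed.card_roots_eq_natDegree, hdeg]
  have s2 := Finset.sum_le_sum fun a (_ : a ∈ f.roots.toFinset) => mul a
  rw [Multiset.toFinset_sum_count_eq, sum_add_distrib, s1] at s2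
  have s3 : ∑ a ∈ f.roots.toFinset, W.roots.count a ≤ W.roots.card := by
    calc _ ≤ ∑ a ∈ f.roots.toFinset ∪ W.roots.toFinset, W.roots.count a :=
          sum_le_sum_of_subset subset_union_left
      _ = _ := Multiset.sum_count_eq_card fun a ha =>
          mem_union_right _ (Multiset.mem_toFinset.2 ha)
  have s4 := card_roots' W
  simp only [sum_const, smul_eq_mul, mul_one] at s2
  omega

open Classical in
theorem result {V : Type} [Fintype V] (G : SimpleGraph V) :
    G.minDegree ≤ (ecp G).roots.toFinset.card := by
  rcases Nat.eq_zero_or_pos G.minDegree with h0 | hpos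
  · omega
  have hne : Nonempty V := by
    by_contra hn
    rw [not_nonempty_iff] at hn
    simp [SimpleGraph.minDegree] at hpos
  have inc : ∀ v, G.minDegree ≤ (G.edgeFinset.filter fun e => v ∈ e).card := fun v => by
    rw [← G.incidenceFinset_eq_filter, G.card_incidenceFinset_eq_degree]
    exact G.minDegree_le_degree v
  obtain ⟨v0⟩ := hne
  have co : ∀ j, (ecp G).coeff j = if j ≤ G.edgeFinset.card then (coverings G j : ℂ) else 0 := by
    intro j
    simp only [ecp, finset_sum_coeff, coeff_C_mul, coeff_X_pow, mul_ite, mul_one, mul_zero,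
      sum_ite_eq, mem_range, Nat.lt_succ_iff]
  have := alg (ecp G) G.edgeFinset.card G.minDegree hpos ((inc v0).trans (card_filter_le _ _)) ?_ ?_
  · convert this
  · rw [co, if_pos (Nat.zero_le _)]
    have : coverings G 0 = 0 := by
      unfold coverings
      rw [card_eq_zero, filter_eq_empty_iff]
      intro S hS h
      obtain ⟨e, he, -⟩ := h v0
      rw [card_eq_zero.1 (mem_powersetCard.1 hS).2] at he
      simp at he
    simp [this]
  · intro j hj
    rw [co]
    split_ifs with h
    · unfold coverings
      rw [filter_true_of_mem, card_powersetCard]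
      intro S hS v
      obtain ⟨hS1, hS2⟩ := mem_powersetCard.1 hS
      by_contra hn
      push Not at hn
      have dj : Disjoint S (G.edgeFinset.filter fun e => v ∈ e) :=
        disjoint_left.2 fun e he h2 => hn e he (mem_filter.1 h2).2
      have := card_le_card (union_subset hS1 (filter_subset (fun e => v ∈ e) G.edgeFinset))
      rw [card_union_of_disjoint dj] at this
      have := inc v
      omega
    · rw [Nat.choose_eq_zero_of_lt (by omega)]; simp

end Pool.Agent.Results.MP_a87573_co.DistinctRoots
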